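import Pool.Agent.helper55.RI.All3

namespace Pool.Agent.Results.MP_2bd605_lc.ClassTransfer

open Pool.Agent.RI

/-- The same question for other classes of sets. Let `𝒞` be a class of sets which contains all
r.e. sets, is closed under computable positive truth-table reductions, and has a set which is
complete in `𝒞` for polynomial time many-one reductions. Then any two such complete sets of `𝒞` are
polynomially isomorphic if and only if this holds for the r.e. sets. All classes `Σ_(n+1)` of the
arithmetical hierarchy have these properties. -/
theorem result :
    (∀ 𝒞 : Set (Set W), Good 𝒞 → (∃ C, CompleteIn 𝒞 C) → (IsoIn 𝒞 ↔ Question)) ∧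
    ∀ n, Good (Sig n) ∧ (∃ C, CompleteIn (Sig n) C) ∧ (IsoIn (Sig n) ↔ Question) :=
  ⟨uFinal.1, uFinal.2.1⟩

end Pool.Agent.Results.MP_2bd605_lc.ClassTransfer
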