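import Pool.Agent.helper55.RI.All3

namespace Pool.Agent.Results.MP_2bd605_lc.ExponentialTime

open Pool.Agent.RI Function

/-- The question and exponential time. The class EXP has polynomially complete sets, and the
following are equivalent: any two of them are polynomially isomorphic; there is no
length-increasing scrambling function; the range of every one-one length-increasing polynomial time
function contains the range of a function which is computable in polynomial time together with an
inverse; any two r.e. sets which are complete under one-one length-increasing reductions are
polynomially isomorphic. The question of the problem has a positive answer if and only if every
polynomially complete r.e. set is complete under one-one length-increasing reductions and any two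
polynomially complete sets of EXP are polynomially isomorphic. -/
theorem result :
    (∃ C, CompleteIn {A | EXPT A} C) ∧
    List.TFAE [IsoIn {A | EXPT A},
      ¬ ∃ f, Scrambling f ∧ Li f,
      ∀ f : W → W, LInc f → ∃ g, PInv g ∧ Set.range g ⊆ Set.range f,
      ∀ A B : Set W, LiComplete A → LiComplete B → PIso A B] ∧
    (Question ↔ (∀ C : Set W, Complete C → LiComplete C) ∧ IsoIn {A | EXPT A}) :=
  uFinal.2.2

end Pool.Agent.Results.MP_2bd605_lc.ExponentialTime
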