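import Pool.Agent.helper55.RI.All

namespace Pool.Agent.Results.MP_2bd605_lc.LengthIncreasing

open Pool.Agent.RI Function

/-- Length-increasing reductions: the question is the conjunction of two questions.
(1) Any two polynomially complete r.e. sets are polynomially isomorphic if and only if every
polynomially complete r.e. set is complete under one-one length-increasing reductions, and any two
sets which are complete under these reductions are polynomially isomorphic.
(2) The first of these two statements holds if and only if the range of every one-one polynomial
time function (with `|f x| > k log₂ (|x| + 1)`) contains the range of a one-one length-increasing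
one, if and only if every complete set does.
(3) The second one holds if and only if there is no length-increasing scrambling function, if and
only if every set complete under these reductions contains the range of a one-one function which is
computable in polynomial time together with an inverse. -/
theorem result :
    (Question ↔ (∀ C : Set W, Complete C → LiComplete C) ∧
      ∀ A B : Set W, LiComplete A → LiComplete B → PIso A B) ∧
    (∀ k : ℕ, List.TFAE [∀ C : Set W, Complete C → LiComplete C,
      ∀ f : W → W, PTime f → Injective f → ∃ g, LInc g ∧ Set.range g ⊆ Set.range f,
      ∀ f : W → W, PTime f → Injective f → Hon k f → ∃ g, LInc g ∧ Set.range g ⊆ Set.range f,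
      ∀ C : Set W, Complete C → ∃ g, LInc g ∧ Set.range g ⊆ C]) ∧
    List.TFAE [∀ A B : Set W, LiComplete A → LiComplete B → PIso A B,
      ∀ f : W → W, LInc f → ∃ g, PInv g ∧ Set.range g ⊆ Set.range f,
      ¬ ∃ f, Scrambling f ∧ Li f,
      ∀ C : Set W, LiComplete C → ∃ g, PInv g ∧ Set.range g ⊆ C] :=
  ⟨uLi3, uLi1, uLi2⟩

end Pool.Agent.Results.MP_2bd605_lc.LengthIncreasing
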