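import Pool.Agent.helper55.RI.All

namespace Pool.Agent.Results.MP_2bd605_lc.ScramblingCriterion

open Pool.Agent.RI Function

/-- Polynomially complete r.e. sets and scrambling functions. For every `k` and every natural
complete set `C₀` (such sets exist) the following are equivalent:
(1) any two polynomially complete r.e. sets are polynomially isomorphic;
(2) there is no scrambling function;
(3) there is no scrambling function with `|f x| > k log₂ (|x| + 1)`;
(4) the range of every one-one polynomial time function contains the range of a one-one function
which is computable in polynomial time together with an inverse;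
(5) the same for functions with `|f x| > k log₂ (|x| + 1)`;
(6) every polynomially complete r.e. set contains such a range;
(7) every polynomially complete r.e. set has a nonempty paddable subset;
(8) `C₀` is isomorphic to its images under the one-one polynomial time functions with
`|f x| > k log₂ (|x| + 1)`. -/
theorem result : (∃ C₀ : Set W, NatComplete C₀) ∧ ∀ (k : ℕ) (C₀ : Set W), NatComplete C₀ →
    List.TFAE [Question,
      ¬ ∃ f, Scrambling f,
      ¬ ∃ f, Scrambling f ∧ Hon k f,
      ∀ f : W → W, PTime f → Injective f → ∃ g, PInv g ∧ Set.range g ⊆ Set.range f,
      ∀ f : W → W, PTime f → Injective f → Hon k f → ∃ g, PInv g ∧ Set.range g ⊆ Set.range f,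
      ∀ C : Set W, Complete C → ∃ g, PInv g ∧ Set.range g ⊆ C,
      ∀ C : Set W, Complete C → ∃ L : Set W, L ⊆ C ∧ L.Nonempty ∧ Paddable L,
      ∀ f : W → W, PTime f → Injective f → Hon k f → PIso C₀ (f '' C₀)] :=
  ⟨uNat, uMain⟩

end Pool.Agent.Results.MP_2bd605_lc.ScramblingCriterion
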